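import Pool.Agent.Helper38.AW.AAcore

/-!
# Project AW (MP_af6c86_pr), packet AA
-/

namespace Pool.Agent.Helper38.AW.AA

theorem t : Pool.Agent.Helper96.AW.S_AA := core Pool.Agent.Helper28.AF.goalEEB

end Pool.Agent.Helper38.AW.AA
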