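import Pool.Agent.Helper96.AW.GoalsB
import Pool.Agent.Helper28.AF.EEB

/-!
# Project AW (MP_af6c86_pr), packet AA: size of the coefficients
-/

set_option autoImplicit false

namespace Pool.Agent.Helper38.AW.AA

open Finset Pool.Agent.Helper26.AF Pool.Agent.Helper26.AL Pool.Agent.Helper96.AW
open Pool.Agent.Helper28.AF (fact_upper fact_lower)

theorem gam_upper {a : ℝ} (ha : 0 < a) :
    Real.Gamma (a + 1 / 2) ^ 2 ≤ a * Real.Gamma a ^ 2 := by
  have h1 := Real.Gamma_mul_add_mul_le_rpow_Gamma_mul_rpow_Gamma ha (by linarith : 0 < a + 1)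
    (by norm_num : (0 : ℝ) < 1 / 2) (by norm_num : (0 : ℝ) < 1 / 2) (by norm_num)
  have h2 : (1 / 2 : ℝ) * a + 1 / 2 * (a + 1) = a + 1 / 2 := by ring
  rw [h2, Real.Gamma_add_one ha.ne', ← Real.sqrt_eq_rpow, ← Real.sqrt_eq_rpow] at h1
  have hG := Real.Gamma_pos_of_pos ha
  have hg := Real.Gamma_pos_of_pos (by linarith : 0 < a + 1 / 2)
  calc Real.Gamma (a + 1 / 2) ^ 2
      ≤ (√(Real.Gamma a) * √(a * Real.Gamma a)) ^ 2 := pow_le_pow_left₀ hg.le h1 2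
    _ = a * Real.Gamma a ^ 2 := by
        rw [mul_pow, Real.sq_sqrt hG.le, Real.sq_sqrt (by positivity)]
        ring

theorem gam_lower {a : ℝ} (ha : 0 < a) :
    a ^ 2 * Real.Gamma a ^ 2 ≤ (a + 1 / 2) * Real.Gamma (a + 1 / 2) ^ 2 := by
  have h1 := gam_upper (by linarith : 0 < a + 1 / 2)
  have h2 : a + 1 / 2 + 1 / 2 = a + 1 := by ring
  rw [h2, Real.Gamma_add_one ha.ne', mul_pow] at h1
  exact h1

theorem gam_sq {a : ℝ} (ha : 3 / 2 ≤ a) :
    Real.Gamma a ^ 2 ≤ Real.Gamma a * Real.Gamma (a + 1 / 2) ∧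
      Real.Gamma a * Real.Gamma (a + 1 / 2) ≤ a * Real.Gamma a ^ 2 := by
  have ha0 : 0 < a := by linarith
  have h1 := gam_upper ha0
  have h2 := gam_lower ha0
  have hG := Real.Gamma_pos_of_pos ha0
  have hg := Real.Gamma_pos_of_pos (by linarith : 0 < a + 1 / 2)
  generalize Real.Gamma (a + 1 / 2) = g at *
  generalize Real.Gamma a = G at *
  have h3 : G ≤ g := by
    have h4 : (a + 1 / 2) * G ^ 2 ≤ (a + 1 / 2) * g ^ 2 := by
      refine le_trans (mul_le_mul_of_nonneg_right ?_ (sq_nonneg _)) h2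
      nlinarith
    have h5 : G ^ 2 ≤ g ^ 2 := le_of_mul_le_mul_left h4 (by linarith)
    exact (pow_le_pow_iff_left₀ hG.le hg.le (by norm_num)).1 h5
  have h4 : g ≤ a * G := by
    have h5 : g ^ 2 ≤ (a * G) ^ 2 := by
      refine h1.trans ?_
      rw [mul_pow]
      refine mul_le_mul_of_nonneg_right ?_ (sq_nonneg _)
      nlinarith
    exact (pow_le_pow_iff_left₀ hg.le (by positivity) (by norm_num)).1 h5
  constructor
  · nlinarith
  · nlinarith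

theorem key (s : ℕ) (hs : 1 ≤ s) (hEEB : StmtEEB) :
    (ee s / (2 ^ (3 * (s : ℝ) / 2) * Real.Gamma (3 * (s : ℝ) / 2))) ^ 2 ≤
      21 * (s : ℝ) ^ 3 * (Real.exp 1 / (12 * s)) ^ s ∧
    (Real.exp 1 / (12 * s)) ^ s ≤ 4800 * (s : ℝ) ^ 3 *
      (ee s / (2 ^ (3 * (s : ℝ) / 2) * Real.Gamma (3 * (s : ℝ) / 2))) ^ 2 := by
  obtain ⟨S, hS⟩ : ∃ S : ℝ, S = s := ⟨_, rfl⟩
  have hS1 : 1 ≤ S := by rw [hS]; exact_mod_cast hs
  have hS0 : 0 < S := by linarith
  obtain ⟨hE1, hE2⟩ := hEEB s hs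
  have hup := fact_upper (3 * s) (by omega)
  have hlo := fact_lower (3 * s)
  have hfac : ((3 * s).factorial : ℝ) = 3 * S * ((3 * s - 1).factorial : ℝ) := by
    have h3 : 3 * s = (3 * s - 1) + 1 := by omega
    have h4 : (3 * s).factorial = (3 * s) * (3 * s - 1).factorial := by
      conv_lhs => rw [h3, Nat.factorial_succ, ← h3]
    rw [h4, hS]
    push_cast
    ring
  have hcast : ((3 * s : ℕ) : ℝ) = 3 * S := by rw [hS]; push_cast; ring
  rw [hfac, hcast] at hup hlo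
  rw [← hS] at hE1 hE2 ⊢
  have ha : (3 : ℝ) / 2 ≤ 3 * S / 2 := by linarith
  obtain ⟨hG1, hG2⟩ := gam_sq ha
  have hleg := Real.Gamma_mul_Gamma_add_half (3 * S / 2)
  have h2a : 2 * (3 * S / 2) = 3 * S := by ring
  have hGam : Real.Gamma (3 * S) = ((3 * s - 1).factorial : ℝ) := by
    have h3 := Real.Gamma_nat_eq_factorial (3 * s - 1)
    have h4 : ((3 * s - 1 : ℕ) : ℝ) + 1 = 3 * S := by
      rw [← hcast]
      have : 3 * s = (3 * s - 1) + 1 := by omega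
      conv_rhs => rw [this]
      push_cast
      ring
    rw [h4] at h3
    exact h3
  have h8 : (2 : ℝ) ^ (3 * S) = 8 ^ s := by
    rw [hS, mul_comm, Real.rpow_mul (by norm_num), ]
    rw [← Real.rpow_natCast 8 s, ← Real.rpow_mul (by norm_num), mul_comm,
      Real.rpow_mul (by norm_num)]
    norm_num
  have h2m : (2 : ℝ) ^ (1 - 3 * S) = 2 / 8 ^ s := by
    rw [Real.rpow_sub (by norm_num), h8, Real.rpow_one]
  rw [h2a, hGam, h2m] at hleg
  rw [hleg] at hG1 hG2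
  have hG0 : 0 < Real.Gamma (3 * S / 2) := Real.Gamma_pos_of_pos (by linarith)
  have hc : (ee s / (2 ^ (3 * S / 2) * Real.Gamma (3 * S / 2))) ^ 2 =
      ee s ^ 2 / (8 ^ s * Real.Gamma (3 * S / 2) ^ 2) := by
    rw [div_pow, mul_pow]
    congr 2
    rw [← Real.rpow_natCast, ← Real.rpow_mul (by norm_num), ← h8]
    congr 1
    push_cast
    ring
  rw [hc]
  clear hc hleg h8 h2m hGam
  generalize Real.Gamma (3 * S / 2) = G at *
  obtain ⟨F, hF⟩ : ∃ F : ℝ, F = ((3 * s - 1).factorial : ℝ) := ⟨_, rfl⟩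
  have hF0 : 0 < F := by rw [hF]; positivity
  rw [← hF] at hE1 hE2 hup hlo hG1 hG2
  clear hF hfac hcast
  obtain ⟨W, hW⟩ : ∃ W : ℝ, W = (3 * S) ^ (2 * s) * Real.exp (-(2 * S)) := ⟨_, rfl⟩
  have hW0 : 0 < W := by rw [hW]; positivity
  rw [mul_assoc (ee s / F), ← hW] at hE1 hE2
  obtain ⟨T, hT⟩ : ∃ T : ℝ, T = (3 * S) ^ (3 * s) * Real.exp (-(3 * S)) := ⟨_, rfl⟩
  have hT0 : 0 < T := by rw [hT]; positivity
  rw [← hT] at hup hlo
  obtain ⟨Z, hZ⟩ : ∃ Z : ℝ, Z = (Real.exp 1 / (12 * S)) ^ s := ⟨_, rfl⟩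
  have hZ0 : 0 < Z := by rw [hZ]; positivity
  rw [← hZ]
  have hZW : Z * (4 ^ s * W ^ 2) = T := by
    rw [hZ, hW, hT, div_pow, mul_pow ((3 * S) ^ (2 * s)) (Real.exp (-(2 * S))) 2, ← pow_mul,
      ← Real.exp_nat_mul, ← Real.exp_nat_mul]
    have h1 : Real.exp ((s : ℕ) * 1) * Real.exp ((2 : ℕ) * -(2 * S)) = Real.exp (-(3 * S)) := by
      rw [← Real.exp_add, hS]
      congr 1
      push_cast
      ring
    have h2 : ((12 : ℝ) * S) ^ s = 4 ^ s * (3 * S) ^ s := by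
      rw [← mul_pow]
      congr 1
      ring
    have h3 : ((3 : ℝ) * S) ^ (2 * s * 2) = (3 * S) ^ s * (3 * S) ^ (3 * s) := by
      rw [← pow_add]
      congr 1
      ring
    rw [h2, h3, ← h1]
    field_simp
  clear hZ hW hT
  -- the sizes
  obtain ⟨θ, hθ⟩ : ∃ θ : ℝ, θ = ee s / F * W := ⟨_, rfl⟩
  rw [← hθ] at hE1 hE2
  have hee : ee s = θ * F / W := by
    rw [hθ]
    field_simp
  rw [hee]
  clear hee hθ
  have hp1 : 1 ≤ √Real.pi := by
    rw [Real.one_le_sqrt]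
    linarith [Real.pi_gt_three]
  have hp2 : √Real.pi ≤ 2 := by
    rw [Real.sqrt_le_left (by norm_num)]
    linarith [Real.pi_le_four]
  have he : Real.exp 1 ≤ 3 := by
    have := Real.exp_one_lt_d9
    linarith
  generalize √Real.pi = p at *
  generalize Real.exp 1 = E at *
  have hθ0 : 0 < θ := lt_of_lt_of_le (by positivity) hE2
  have h4 : (2 : ℝ) ^ s * 2 ^ s = 4 ^ s := by rw [← mul_pow]; norm_num
  -- bounds of theta squared
  have ht1 : θ ^ 2 * 4 ^ s ≤ 9 * S ^ 2 := by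
    rw [le_div_iff₀ (by positivity)] at hE1
    have h5 : (θ * 2 ^ s) ^ 2 ≤ (3 * S) ^ 2 := pow_le_pow_left₀ (by positivity) hE1 2
    calc θ ^ 2 * 4 ^ s = (θ * 2 ^ s) ^ 2 := by rw [← h4]; ring
      _ ≤ _ := h5
      _ = _ := by ring
  have ht2 : 1 ≤ 400 * S ^ 2 * (θ ^ 2 * 4 ^ s) := by
    rw [div_le_iff₀ (by positivity)] at hE2
    have h5 : (1 : ℝ) ^ 2 ≤ (θ * (20 * S * 2 ^ s)) ^ 2 := pow_le_pow_left₀ (by norm_num) hE2 2
    calc (1 : ℝ) = 1 ^ 2 := by norm_num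
      _ ≤ _ := h5
      _ = _ := by rw [← h4]; ring
  -- the gamma part: `8 ^ s * G ^ 2` between `2 F p / a` and `2 F p`
  have h8p : (0 : ℝ) < 8 ^ s := by positivity
  have hg1 : 8 ^ s * G ^ 2 ≤ 2 * F * p := by
    have h5 := mul_le_mul_of_nonneg_left hG1 h8p.le
    calc 8 ^ s * G ^ 2 ≤ 8 ^ s * (F * (2 / 8 ^ s) * p) := h5
      _ = 2 * F * p := by field_simp
  have hg2 : 2 * F * p ≤ 3 * S / 2 * (8 ^ s * G ^ 2) := by
    have h5 := mul_le_mul_of_nonneg_left hG2 h8p.le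
    calc 2 * F * p = 8 ^ s * (F * (2 / 8 ^ s) * p) := by field_simp
      _ ≤ 8 ^ s * (3 * S / 2 * G ^ 2) := h5
      _ = _ := by ring
  obtain ⟨X, hX⟩ : ∃ X : ℝ, X = 8 ^ s * G ^ 2 := ⟨_, rfl⟩
  have hX0 : 0 < X := by rw [hX]; positivity
  rw [← hX] at hg1 hg2 ⊢
  have h4p : (0 : ℝ) < 4 ^ s := by positivity
  obtain ⟨Q, hQ⟩ : ∃ Q : ℝ, Q = 4 ^ s := ⟨_, rfl⟩
  rw [← hQ] at hZW ht1 ht2 h4p
  clear hE1 hE2 hG1 hG2 hX h4 hQ h8p
  have hFT : F ≤ E * T := by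
    have h5 : 3 * S * F ≤ 3 * S * (E * T) := by
      calc 3 * S * F ≤ E * (3 * S) * T := hup
        _ = _ := by ring
    exact le_of_mul_le_mul_left h5 (by positivity)
  have hE0 : 0 < E := by
    by_contra h
    push Not at h
    nlinarith
  constructor
  · -- upper bound
    rw [div_pow, div_div, div_le_iff₀ (by positivity)]
    have h5 : F ≤ 3 * S / 4 * X := by nlinarith
    calc (θ * F) ^ 2 = θ ^ 2 * F * F := by ring
      _ ≤ θ ^ 2 * (E * T) * (3 * S / 4 * X) := by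
          gcongr
      _ = (θ ^ 2 * Q) * E * Z * W ^ 2 * (3 * S / 4 * X) := by rw [← hZW]; ring
      _ ≤ (9 * S ^ 2) * 3 * Z * W ^ 2 * (3 * S / 4 * X) := by
          gcongr
      _ = (81 / 4) * (S ^ 3 * Z * (W ^ 2 * X)) := by ring
      _ ≤ 21 * (S ^ 3 * Z * (W ^ 2 * X)) := by
          gcongr
          norm_num
      _ = _ := by ring
  · -- lower bound
    rw [div_pow, div_div, mul_div_assoc', le_div_iff₀ (by positivity)]
    calc Z * (W ^ 2 * X) ≤ Z * (W ^ 2 * (2 * F * 2)) := by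
          have : 2 * F * p ≤ 2 * F * 2 := by nlinarith
          gcongr
          exact hg1.trans this
      _ = 4 * F * Z * W ^ 2 := by ring
      _ ≤ 4 * F * Z * W ^ 2 * (400 * S ^ 2 * (θ ^ 2 * Q)) := by
          exact le_mul_of_one_le_right (by positivity) ht2
      _ = 1600 * S ^ 2 * F * θ ^ 2 * (Z * (Q * W ^ 2)) := by ring
      _ = 1600 * S ^ 2 * F * θ ^ 2 * T := by rw [hZW]
      _ ≤ 1600 * S ^ 2 * F * θ ^ 2 * (3 * S * F) := by
          gcongr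
      _ = 4800 * S ^ 3 * (θ * F) ^ 2 := by ring

theorem core (hEEB : StmtEEB) : S_AA := by
  refine ⟨100, by norm_num, fun s hs x hx => ?_⟩
  obtain ⟨h1, h2⟩ := key s hs hEEB
  obtain ⟨S, hS⟩ : ∃ S : ℝ, S = s := ⟨_, rfl⟩
  have hS1 : 1 ≤ S := by rw [hS]; exact_mod_cast hs
  have hS0 : 0 < S := by linarith
  obtain ⟨Z, hZ⟩ : ∃ Z : ℝ, Z = (Real.exp 1 / (12 * S)) ^ (S / 2) := ⟨_, rfl⟩
  have hZ0 : 0 < Z := by rw [hZ]; positivity
  have hZ2 : Z ^ 2 = (Real.exp 1 / (12 * S)) ^ s := by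
    rw [hZ, ← Real.rpow_natCast, ← Real.rpow_mul (by positivity), hS, ← Real.rpow_natCast]
    congr 1
    push_cast
    ring
  have hee : 0 < ee s := by unfold ee; positivity
  rw [← hS] at h1 h2 ⊢
  rw [← hZ2] at h1 h2
  have hG0 : 0 < Real.Gamma (3 * S / 2) := Real.Gamma_pos_of_pos (by linarith)
  obtain ⟨c, hc⟩ : ∃ c : ℝ, c = ee s / (2 ^ (3 * S / 2) * Real.Gamma (3 * S / 2)) := ⟨_, rfl⟩
  have hc0 : 0 < c := by rw [hc]; positivity
  have hw : ee s * ww s x = c * x ^ (3 * S / 2 - 1) := by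
    unfold ww
    rw [← hS, hc]
    ring
  have hz : x⁻¹ * (Real.exp 1 * x ^ 3 / (12 * S)) ^ (S / 2) = Z * x ^ (3 * S / 2 - 1) := by
    have h3 : Real.exp 1 * x ^ 3 / (12 * S) = (Real.exp 1 / (12 * S)) * x ^ 3 := by ring
    rw [h3, Real.mul_rpow (by positivity) (by positivity), ← hZ, ← Real.rpow_natCast,
      ← Real.rpow_mul hx.le, Real.rpow_sub hx, Real.rpow_one]
    have h4 : ((3 : ℕ) : ℝ) * (S / 2) = 3 * S / 2 := by push_cast; ring
    rw [h4]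
    field_simp
  rw [hw, hz]
  rw [← hc] at h1 h2
  have hS36 : S ^ 3 ≤ S ^ 6 := pow_le_pow_right₀ hS1 (by norm_num)
  have h3 : c ≤ 100 * S ^ 3 * Z := by
    refine (pow_le_pow_iff_left₀ hc0.le (by positivity) (two_ne_zero)).1 ?_
    calc c ^ 2 ≤ 21 * S ^ 3 * Z ^ 2 := h1
      _ ≤ 10000 * S ^ 6 * Z ^ 2 := by
          gcongr
          norm_num
      _ = _ := by ring
  have h4 : Z ≤ 100 * S ^ 3 * c := by
    refine (pow_le_pow_iff_left₀ hZ0.le (by positivity) (two_ne_zero)).1 ?_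
    calc Z ^ 2 ≤ 4800 * S ^ 3 * c ^ 2 := h2
      _ ≤ 10000 * S ^ 6 * c ^ 2 := by
          gcongr
          norm_num
      _ = _ := by ring
  have hx0 : 0 < x ^ (3 * S / 2 - 1) := by positivity
  constructor
  · calc c * x ^ (3 * S / 2 - 1) ≤ (100 * S ^ 3 * Z) * x ^ (3 * S / 2 - 1) := by gcongr
      _ = _ := by ring
  · calc Z * x ^ (3 * S / 2 - 1) ≤ (100 * S ^ 3 * c) * x ^ (3 * S / 2 - 1) := by gcongr
      _ = _ := by ring

end Pool.Agent.Helper38.AW.AA
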