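import Pool.Agent.Helper96.AW.GoalsA

/-!
# Project AW (MP_af6c86_pr), packet GF: moment of the number of faces
-/

set_option autoImplicit false

namespace Pool.Agent.Helper38.AW.GF

open Finset Pool.Agent.Helper26.AF Pool.Agent.Helper26.AL Pool.Agent.Helper96.AW

section

variable {D : Type} [Fintype D] [DecidableEq D]

theorem stab {κ : Equiv.Perm D} {a b : D} (hκ : IsPair κ) (hab : κ a = b) (x : D) :
    (κ x ≠ a ∧ κ x ≠ b) ↔ (x ≠ a ∧ x ≠ b) := by
  have hb : κ b = a := by rw [← hab]; exact (hκ a).1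
  constructor
  · rintro ⟨h1, h2⟩
    exact ⟨fun h => h2 (by rw [h, hab]), fun h => h1 (by rw [h, hb])⟩
  · rintro ⟨h1, h2⟩
    refine ⟨fun h => h2 ?_, fun h => h1 ?_⟩
    · have := (hκ x).1
      rw [h, hab] at this
      exact this.symm
    · have := (hκ x).1
      rw [h, hb] at this
      exact this.symm

open Classical in
/-- the restriction -/
noncomputable def rs (a b : D) (κ : Equiv.Perm D) : Equiv.Perm {x : D // x ≠ a ∧ x ≠ b} :=
  if h : ∀ x, (κ x ≠ a ∧ κ x ≠ b) ↔ (x ≠ a ∧ x ≠ b) then κ.subtypePerm h else 1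

theorem rs_apply {a b : D} {κ : Equiv.Perm D} (hκ : IsPair κ) (hab : κ a = b)
    (x : {x : D // x ≠ a ∧ x ≠ b}) : (rs a b κ x).1 = κ x.1 := by
  unfold rs
  rw [dif_pos (stab hκ hab)]
  rfl

theorem rs_pair {a b : D} {κ : Equiv.Perm D} (hκ : IsPair κ) (hab : κ a = b) :
    IsPair (rs a b κ) := by
  intro x
  constructor
  · apply Subtype.ext
    rw [rs_apply hκ hab, rs_apply hκ hab]
    exact (hκ x.1).1
  · intro h
    have h1 := congrArg Subtype.val h
    rw [rs_apply hκ hab] at h1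
    exact (hκ x.1).2 h1

theorem rs_inj {a b : D} {κ κ' : Equiv.Perm D} (hκ : IsPair κ) (hab : κ a = b) (hκ' : IsPair κ')
    (hab' : κ' a = b) (h : rs a b κ = rs a b κ') : κ = κ' := by
  have hb : κ b = a := by rw [← hab]; exact (hκ a).1
  have hb' : κ' b = a := by rw [← hab']; exact (hκ' a).1
  ext x
  by_cases h1 : x = a
  · rw [h1, hab, hab']
  by_cases h2 : x = b
  · rw [h2, hb, hb']
  rw [← rs_apply hκ hab ⟨x, h1, h2⟩, ← rs_apply hκ' hab' ⟨x, h1, h2⟩, h]

theorem card_rest {a b : D} (hab : a ≠ b) (m : ℕ) (h : Fintype.card D = 2 * (m + 1)) :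
    Fintype.card {x : D // x ≠ a ∧ x ≠ b} = 2 * m := by
  rw [Fintype.card_subtype]
  have h1 : (univ.filter fun x : D => x ≠ a ∧ x ≠ b) = univ \ {a, b} := by
    ext x
    simp
  rw [h1, card_sdiff_of_subset (subset_univ _), card_univ, h, card_pair hab]
  omega

end

open Classical in
/-- the statement for `m` -/
def St (m : ℕ) : Prop := ∀ (D : Type) [Fintype D] [DecidableEq D] (σ : Equiv.Perm D) (x : ℝ),
  Fintype.card D = 2 * m → 1 ≤ x →
  ∑ κ ∈ (univ : Finset (Equiv.Perm D)).filter IsPair, x ^ orb (σ * κ)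
    ≤ x ^ fix σ * ∏ i ∈ range m, (2 * (i : ℝ) + 1 + 4 * x ^ 4)

open Classical in
theorem one_b (hGE : S_GE) (m : ℕ) (ih : St m) (D : Type) [Fintype D] [DecidableEq D]
    (σ : Equiv.Perm D) (x : ℝ) (hD : Fintype.card D = 2 * (m + 1)) (hx : 1 ≤ x) (a b : D)
    (hab : a ≠ b) : ∃ N : ℕ,
      ∑ κ ∈ ((univ : Finset (Equiv.Perm D)).filter IsPair).filter (fun κ => κ a = b),
        x ^ orb (σ * κ) ≤ x ^ N * ∏ i ∈ range m, (2 * (i : ℝ) + 1 + 4 * x ^ 4) ∧
      (σ a = a → N ≤ fix σ) ∧ ((∀ y, σ y ≠ y) → N ≤ 4 ∧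
        (b ≠ σ a → b ≠ σ⁻¹ a → b ≠ σ (σ a) → b ≠ σ⁻¹ (σ⁻¹ a) → N = 0)) := by
  obtain ⟨σ', e, h1, h2, h3⟩ := hGE D σ a b hab
  refine ⟨fix σ' + e, ?_, h2, h3⟩
  have hx0 : 0 ≤ x := zero_le_one.trans hx
  have h4 := ih {y : D // y ≠ a ∧ y ≠ b} σ' x (card_rest hab m hD) hx
  have h5 : ∑ κ ∈ ((univ : Finset (Equiv.Perm D)).filter IsPair).filter (fun κ => κ a = b),
      x ^ orb (σ * κ) = ∑ κ ∈ ((univ : Finset (Equiv.Perm D)).filter IsPair).filter
        (fun κ => κ a = b), x ^ e * x ^ orb (σ' * rs a b κ) := by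
    refine sum_congr rfl fun κ hκ => ?_
    rw [mem_filter, mem_filter] at hκ
    rw [h1 κ (rs a b κ) hκ.1.2 hκ.2 (rs_apply hκ.1.2 hκ.2), pow_add, mul_comm]
  rw [h5, ← mul_sum]
  have h6 : ∑ κ ∈ ((univ : Finset (Equiv.Perm D)).filter IsPair).filter (fun κ => κ a = b),
      x ^ orb (σ' * rs a b κ) ≤
      ∑ κ ∈ (univ : Finset (Equiv.Perm {y : D // y ≠ a ∧ y ≠ b})).filter IsPair,
        x ^ orb (σ' * κ) := by
    have h7 : ∑ κ ∈ ((univ : Finset (Equiv.Perm D)).filter IsPair).filter (fun κ => κ a = b),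
        x ^ orb (σ' * rs a b κ) = ∑ κ ∈ (((univ : Finset (Equiv.Perm D)).filter IsPair).filter
          (fun κ => κ a = b)).image (rs a b), x ^ orb (σ' * κ) := by
      rw [sum_image]
      intro κ hκ κ' hκ' h
      rw [mem_coe, mem_filter, mem_filter] at hκ hκ'
      exact rs_inj hκ.1.2 hκ.2 hκ'.1.2 hκ'.2 h
    rw [h7]
    refine sum_le_sum_of_subset_of_nonneg ?_ fun _ _ _ => pow_nonneg hx0 _
    intro κ hκ
    rw [mem_image] at hκ
    obtain ⟨κ0, hκ0, rfl⟩ := hκ
    rw [mem_filter, mem_filter] at hκ0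
    rw [mem_filter]
    exact ⟨mem_univ _, rs_pair hκ0.1.2 hκ0.2⟩
  calc x ^ e * ∑ κ ∈ ((univ : Finset (Equiv.Perm D)).filter IsPair).filter (fun κ => κ a = b),
      x ^ orb (σ' * rs a b κ)
      ≤ x ^ e * (x ^ fix σ' * ∏ i ∈ range m, (2 * (i : ℝ) + 1 + 4 * x ^ 4)) := by
        exact mul_le_mul_of_nonneg_left (h6.trans h4) (pow_nonneg hx0 _)
    _ = _ := by rw [pow_add]; ring

open Classical in
theorem st_succ (hGE : S_GE) (m : ℕ) (ih : St m) : St (m + 1) := by
  intro D _ _ σ x hD hx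
  have hx0 : 0 ≤ x := zero_le_one.trans hx
  obtain ⟨B, hB⟩ : ∃ B, B = ∏ i ∈ range m, (2 * (i : ℝ) + 1 + 4 * x ^ 4) := ⟨_, rfl⟩
  have hB0 : 0 ≤ B := by
    rw [hB]
    exact prod_nonneg fun i _ => by positivity
  rw [prod_range_succ, ← hB]
  have hsplit : ∀ a : D, ∑ κ ∈ (univ : Finset (Equiv.Perm D)).filter IsPair, x ^ orb (σ * κ) =
      ∑ b ∈ univ.erase a, ∑ κ ∈ ((univ : Finset (Equiv.Perm D)).filter IsPair).filter
        (fun κ => κ a = b), x ^ orb (σ * κ) := by
    intro a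
    rw [sum_fiberwise_of_maps_to]
    intro κ hκ
    rw [mem_filter] at hκ
    exact mem_erase.2 ⟨(hκ.2 a).2, mem_univ _⟩
  have hcard : ∀ a : D, (#(univ.erase a) : ℝ) = 2 * (m : ℝ) + 1 := by
    intro a
    rw [card_erase_of_mem (mem_univ _), card_univ, hD]
    have : 2 * (m + 1) - 1 = 2 * m + 1 := by omega
    rw [this]
    push_cast
    ring
  have hone := one_b hGE m ih D σ x hD hx
  rw [← hB] at hone
  by_cases hf : ∃ a, σ a = a
  · obtain ⟨a, ha⟩ := hf
    rw [hsplit a]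
    have h1 : ∀ b ∈ univ.erase a, ∑ κ ∈ ((univ : Finset (Equiv.Perm D)).filter IsPair).filter
        (fun κ => κ a = b), x ^ orb (σ * κ) ≤ x ^ fix σ * B := by
      intro b hb
      obtain ⟨N, h2, h3, _⟩ := hone a b (ne_of_mem_erase hb).symm
      exact h2.trans (mul_le_mul_of_nonneg_right (pow_le_pow_right₀ hx (h3 ha)) hB0)
    refine (sum_le_sum h1).trans ?_
    rw [sum_const, nsmul_eq_mul, hcard]
    have h2 : 0 ≤ x ^ fix σ * B * (4 * x ^ 4) := by positivity
    nlinarith [h2]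
  · push Not at hf
    have hfix : fix σ = 0 := by
      unfold fix
      rw [Nat.card_eq_zero]
      left
      exact ⟨fun y => hf y.1 y.2⟩
    have hne : Nonempty D := by
      rw [← Fintype.card_pos_iff, hD]
      omega
    obtain ⟨a⟩ := hne
    rw [hsplit a, hfix, pow_zero, one_mul]
    obtain ⟨T, hT⟩ : ∃ T : Finset D, T = {σ a, σ⁻¹ a, σ (σ a), σ⁻¹ (σ⁻¹ a)} := ⟨_, rfl⟩
    have hT4 : #T ≤ 4 := by rw [hT]; exact card_le_four
    have h1 : ∀ b ∈ univ.erase a, ∑ κ ∈ ((univ : Finset (Equiv.Perm D)).filter IsPair).filter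
        (fun κ => κ a = b), x ^ orb (σ * κ) ≤ B + if b ∈ T then x ^ 4 * B else 0 := by
      intro b hb
      obtain ⟨N, h2, _, h3⟩ := hone a b (ne_of_mem_erase hb).symm
      refine h2.trans ?_
      by_cases hbT : b ∈ T
      · rw [if_pos hbT]
        have h4 := mul_le_mul_of_nonneg_right (pow_le_pow_right₀ hx (h3 hf).1) hB0
        linarith
      · rw [if_neg hbT]
        rw [hT] at hbT
        simp only [mem_insert, mem_singleton, not_or] at hbT
        rw [(h3 hf).2 hbT.1 hbT.2.1 hbT.2.2.1 hbT.2.2.2, pow_zero, one_mul, add_zero]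
    refine (sum_le_sum h1).trans ?_
    rw [sum_add_distrib, sum_const, nsmul_eq_mul, hcard]
    have h2 : ∑ b ∈ univ.erase a, (if b ∈ T then x ^ 4 * B else 0) ≤ 4 * (x ^ 4 * B) := by
      have h0 : 0 ≤ x ^ 4 * B := by positivity
      calc ∑ b ∈ univ.erase a, (if b ∈ T then x ^ 4 * B else 0)
          ≤ ∑ b : D, (if b ∈ T then x ^ 4 * B else 0) := by
            refine sum_le_sum_of_subset_of_nonneg (erase_subset _ _) fun b _ _ => ?_
            split_ifs
            · exact h0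
            · exact le_rfl
        _ = #T * (x ^ 4 * B) := by
            rw [← sum_filter, sum_const, nsmul_eq_mul]
            congr 2
            simp
        _ ≤ 4 * (x ^ 4 * B) := by
            refine mul_le_mul_of_nonneg_right ?_ h0
            exact_mod_cast hT4
    nlinarith [h2]

theorem t : Pool.Agent.Helper96.AW.S_GF := by
  classical
  intro hGE m
  have h0 : St 0 := by
    intro D _ _ σ x hD hx
    have hE : IsEmpty D := Fintype.card_eq_zero_iff.1 (by rw [hD])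
    rw [range_zero, prod_empty, mul_one]
    have h1 : ∀ π : Equiv.Perm D, orb π = 0 := by
      intro π
      unfold orb
      rw [Nat.card_eq_zero]
      left
      exact ⟨fun q => Quotient.inductionOn q fun d => hE.false d⟩
    have h2 : ∀ κ ∈ (univ : Finset (Equiv.Perm D)).filter IsPair, x ^ orb (σ * κ) = 1 := by
      intro κ _
      rw [h1, pow_zero]
    rw [sum_congr rfl h2, sum_const, nsmul_eq_mul, mul_one]
    have h3 : #((univ : Finset (Equiv.Perm D)).filter IsPair) ≤ 1 := by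
      refine (card_le_univ _).trans ?_
      rw [Fintype.card_perm, hD]
      rfl
    have h4 : (#((univ : Finset (Equiv.Perm D)).filter IsPair) : ℝ) ≤ 1 := by exact_mod_cast h3
    exact h4.trans (one_le_pow₀ hx)
  have hall : St m := by
    induction m with
    | zero => exact h0
    | succ m ih => exact st_succ hGE m ih
  intro D _ _ σ x hD hx
  exact hall D σ x hD hx

end Pool.Agent.Helper38.AW.GF
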