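import Pool.Agent.Helper96.AW.GoalsA

/-!
# Project AW (MP_af6c86_pr), packet TB2: number of cycles
-/

set_option autoImplicit false

namespace Pool.Agent.Helper38.AW.TB2

open Finset Function Pool.Agent.Helper26.AF Pool.Agent.Helper96.AW

section graph

variable {V : Type}

/-- every vertex has exactly two neighbours or none -/
def Reg (G : SimpleGraph V) : Prop :=
  ∀ v x, G.Adj v x → ∃ z, G.Adj v z ∧ z ≠ x ∧ ∀ w, G.Adj v w → w = x ∨ w = z

variable {G : SimpleGraph V} (h : Reg G)

/-- the other neighbour -/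
noncomputable def oth (d : G.Dart) : V := Classical.choose (h d.snd d.fst d.adj.symm)

theorem oth_adj (d : G.Dart) : G.Adj d.snd (oth h d) :=
  (Classical.choose_spec (h d.snd d.fst d.adj.symm)).1

theorem oth_ne (d : G.Dart) : oth h d ≠ d.fst :=
  (Classical.choose_spec (h d.snd d.fst d.adj.symm)).2.1

theorem oth_all (d : G.Dart) (w : V) (hw : G.Adj d.snd w) : w = d.fst ∨ w = oth h d :=
  (Classical.choose_spec (h d.snd d.fst d.adj.symm)).2.2 w hw

/-- the next dart -/
noncomputable def N (d : G.Dart) : G.Dart := ⟨(d.snd, oth h d), oth_adj h d⟩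

theorem dart_ext {d e : G.Dart} (h1 : d.fst = e.fst) (h2 : d.snd = e.snd) : d = e := by
  rw [SimpleGraph.Dart.ext_iff]
  exact Prod.ext h1 h2

theorem N_rev (d : G.Dart) : N h (N h d).symm = d.symm := by
  apply dart_ext
  · rfl
  · show oth h (N h d).symm = d.fst
    have h1 := oth_all h (N h d).symm d.fst (d.adj.symm : G.Adj d.snd d.fst)
    rcases h1 with h1 | h1
    · exact absurd h1.symm (oth_ne h d)
    · exact h1.symm

theorem N_inj : Injective (N h) := by
  intro d e hde
  have h1 := N_rev h d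
  rw [hde, N_rev h e] at h1
  exact (SimpleGraph.Dart.symm_involutive.injective h1).symm

theorem no_rev_aux (d : G.Dart) : ∀ t m : ℕ, (N h)^[m + t] d ≠ ((N h)^[m] d).symm := by
  intro t
  induction t using Nat.strong_induction_on with
  | _ t ih =>
    intro m hc
    rcases Nat.lt_or_ge t 2 with h2 | h2
    · rcases Nat.lt_or_ge t 1 with h1 | h1
      · have ht : t = 0 := by omega
        rw [ht, Nat.add_zero] at hc
        exact SimpleGraph.Dart.symm_ne _ hc.symm
      · have ht : t = 1 := by omega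
        rw [ht, iterate_succ_apply'] at hc
        have h3 := congrArg (fun e : G.Dart => e.snd) hc
        exact oth_ne h _ h3
    · obtain ⟨r, hr⟩ : ∃ r, t = r + 2 := ⟨t - 2, by omega⟩
      have h3 : m + t = (m + 1 + r) + 1 := by omega
      rw [h3, iterate_succ_apply'] at hc
      have h4 : (N h ((N h)^[m + 1 + r] d)).symm = (N h)^[m] d := by
        rw [hc, SimpleGraph.Dart.symm_symm]
      have h5 := N_rev h ((N h)^[m + 1 + r] d)
      rw [h4, ← iterate_succ_apply' (N h) m d] at h5
      refine ih r (by omega) (m + 1) ?_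
      rw [h5, SimpleGraph.Dart.symm_symm]

theorem no_rev (d : G.Dart) (i j : ℕ) : (N h)^[i] d ≠ ((N h)^[j] d).symm := by
  intro hc
  rcases Nat.le_total j i with h1 | h1
  · obtain ⟨t, rfl⟩ := Nat.exists_eq_add_of_le h1
    exact no_rev_aux h d t j hc
  · obtain ⟨t, rfl⟩ := Nat.exists_eq_add_of_le h1
    refine no_rev_aux h d t i ?_
    rw [hc, SimpleGraph.Dart.symm_symm]

variable [Finite V]

theorem finite_dart : Finite G.Dart :=
  Finite.of_injective (fun d : G.Dart => d.toProd) fun d e hde => by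
    rw [SimpleGraph.Dart.ext_iff]
    exact hde

theorem pre (d : G.Dart) (i : ℕ) : ∃ i', N h ((N h)^[i'] d) = (N h)^[i] d := by
  have := finite_dart (G := G)
  have h1 := (N_inj h).mem_periodicPts d
  rw [mem_periodicPts] at h1
  obtain ⟨k, hk, hp⟩ := h1
  refine ⟨i + (k - 1), ?_⟩
  rw [← iterate_succ_apply' (N h) (i + (k - 1)) d]
  have h2 : (i + (k - 1)).succ = i + k := by omega
  rw [h2, iterate_add_apply, hp.eq]

theorem fst_inj (d : G.Dart) (i j : ℕ) (hij : ((N h)^[i] d).fst = ((N h)^[j] d).fst) :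
    (N h)^[i] d = (N h)^[j] d := by
  obtain ⟨i', hi'⟩ := pre h d i
  have h1 : ((N h)^[i'] d).snd = ((N h)^[j] d).fst := by
    rw [← hij, ← hi']
    rfl
  rcases oth_all h ((N h)^[i'] d) ((N h)^[j] d).snd (by rw [h1]; exact ((N h)^[j] d).adj) with
    h2 | h2
  · exfalso
    refine no_rev h d j i' (dart_ext ?_ h2)
    exact h1.symm
  · refine dart_ext hij ?_
    rw [h2, ← hi']
    rfl

theorem surj (hc : G.Connected) (d : G.Dart) (w : V) : ∃ i, ((N h)^[i] d).fst = w := by
  have h1 : ∀ (a b : V) (p : G.Walk a b), (∃ i, ((N h)^[i] d).fst = a) →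
      ∃ i, ((N h)^[i] d).fst = b := by
    intro a b p
    induction p with
    | nil => exact fun hx => hx
    | @cons u v w hadj p ih =>
      rintro ⟨i, hi⟩
      refine ih ?_
      obtain ⟨i', hi'⟩ := pre h d i
      have h2 : ((N h)^[i'] d).snd = u := by
        rw [← hi, ← hi']
        rfl
      rcases oth_all h ((N h)^[i'] d) v (by rw [h2]; exact hadj) with h3 | h3
      · exact ⟨i', h3.symm⟩
      · refine ⟨i + 1, ?_⟩
        rw [iterate_succ_apply', ← hi', h3]
        rfl
  obtain ⟨p⟩ := hc.preconnected d.fst w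
  exact h1 _ _ p ⟨0, rfl⟩

end graph

theorem exists_seq {s : ℕ} (G : SimpleGraph (Fin s)) (h : Reg G) (hc : G.Connected)
    (d : G.Dart) : ∃ v : ℕ → Fin s, v 0 = d.fst ∧ v 1 = d.snd ∧ (∀ i, v (i % s) = v i) ∧
      Bijective (fun i : Fin s => v i) ∧
      ∀ x y, G.Adj x y ↔ ∃ i, (x = v i ∧ y = v (i + 1)) ∨ (y = v i ∧ x = v (i + 1)) := by
  have hfin := finite_dart (G := G)
  obtain ⟨k, hk⟩ : ∃ k, k = minimalPeriod (N h) d := ⟨_, rfl⟩
  have hk0 : 0 < k := by
    rw [hk]
    exact minimalPeriod_pos_of_mem_periodicPts ((N_inj h).mem_periodicPts d)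
  have hmod : ∀ i, (N h)^[i % k] d = (N h)^[i] d := by
    intro i
    rw [hk]
    exact iterate_mod_minimalPeriod_eq
  have hbij : Bijective (fun i : Fin k => ((N h)^[i.val] d).fst) := by
    constructor
    · intro i j hij
      have h1 := fst_inj h d i.val j.val hij
      have h2 := iterate_injOn_Iio_minimalPeriod (f := N h) (x := d)
      rw [← hk] at h2
      exact Fin.ext (h2 i.isLt j.isLt h1)
    · intro w
      obtain ⟨i, hi⟩ := surj h hc d w
      refine ⟨⟨i % k, Nat.mod_lt _ hk0⟩, ?_⟩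
      show ((N h)^[i % k] d).fst = w
      rw [hmod, hi]
  have hks : k = s := by
    have h1 := Fintype.card_of_bijective hbij
    rwa [Fintype.card_fin, Fintype.card_fin] at h1
  subst hks
  refine ⟨fun i => ((N h)^[i] d).fst, rfl, rfl, fun i => ?_, hbij, fun x y => ?_⟩
  · show ((N h)^[i % k] d).fst = ((N h)^[i] d).fst
    rw [hmod]
  · have hsucc : ∀ i, ((N h)^[i + 1] d).fst = ((N h)^[i] d).snd := by
      intro i
      rw [iterate_succ_apply']
      rfl
    beta_reduce
    constructor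
    · intro hxy
      obtain ⟨i, hi⟩ := surj h hc d x
      obtain ⟨i', hi'⟩ := pre h d i
      have h2 : ((N h)^[i'] d).snd = x := by
        rw [← hi, ← hi']
        rfl
      rcases oth_all h ((N h)^[i'] d) y (by rw [h2]; exact hxy) with h3 | h3
      · exact ⟨i', Or.inr ⟨h3, by rw [hsucc, h2]⟩⟩
      · refine ⟨i, Or.inl ⟨hi.symm, ?_⟩⟩
        rw [hsucc, h3, ← hi']
        rfl
    · rintro ⟨i, ⟨h1, h2⟩ | ⟨h1, h2⟩⟩
      · rw [h1, h2, hsucc]
        exact ((N h)^[i] d).adj
      · rw [h1, h2, hsucc]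
        exact ((N h)^[i] d).adj.symm

theorem reg_of {s : ℕ} (G : SimpleGraph (Fin s)) (h2 : ∀ v, 2 ≤ dg G v) (hn : ne G = s + 0) :
    Reg G := by
  classical
  have hdg : ∀ v, dg G v = G.degree v := by
    intro v
    unfold dg
    rw [Nat.card_eq_fintype_card, SimpleGraph.card_neighborSet_eq_degree]
  have hne : ne G = #G.edgeFinset := by
    unfold ne
    rw [Nat.card_eq_fintype_card, SimpleGraph.edgeFinset_card]
  have hsum := G.sum_degrees_eq_twice_card_edges
  rw [← hne, hn] at hsum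
  have h3 : ∀ v, dg G v = 2 := by
    have h4 : ∑ v, dg G v = ∑ _v : Fin s, 2 := by
      rw [sum_congr rfl fun v _ => hdg v, hsum, sum_const, card_univ, Fintype.card_fin,
        smul_eq_mul]
      ring
    have h5 := (sum_eq_sum_iff_of_le (s := univ) (f := fun _ : Fin s => 2)
      (g := fun v => dg G v) (fun v _ => h2 v)).1 h4.symm
    exact fun v => (h5 v (mem_univ v)).symm
  intro v x hvx
  have h4 := h3 v
  unfold dg at h4
  rw [Nat.card_eq_two_iff' (⟨x, hvx⟩ : G.neighborSet v)] at h4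
  obtain ⟨⟨z, hz⟩, h5, h6⟩ := h4
  refine ⟨z, hz, fun e => h5 (Subtype.ext e), fun w hw => ?_⟩
  by_cases hwx : w = x
  · exact Or.inl hwx
  · right
    have h7 := h6 ⟨w, hw⟩ (fun e => hwx (congrArg Subtype.val e))
    exact congrArg Subtype.val h7

theorem main (s : ℕ) : 2 * s * Kc s 0 ≤ s.factorial := by
  classical
  let T := {G : SimpleGraph (Fin s) // G.Connected ∧ (∀ v, 2 ≤ dg G v) ∧ ne G = s + 0}
  have hex : ∀ p : (Σ G : T, G.1.Dart), ∃ v : ℕ → Fin s, v 0 = p.2.fst ∧ v 1 = p.2.snd ∧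
      (∀ i, v (i % s) = v i) ∧ Bijective (fun i : Fin s => v i) ∧
      ∀ x y, p.1.1.Adj x y ↔ ∃ i, (x = v i ∧ y = v (i + 1)) ∨ (y = v i ∧ x = v (i + 1)) :=
    fun p => exists_seq p.1.1 (reg_of p.1.1 p.1.2.2.1 p.1.2.2.2) p.1.2.1 p.2
  choose v hv0 hv1 hvm hvb hva using hex
  have hinj : Injective (fun p : (Σ G : T, G.1.Dart) => Equiv.ofBijective _ (hvb p)) := by
    intro p q hpq
    have h1 : ∀ i, v p i = v q i := by
      intro i
      have hs : 0 < s := by
        have := (v p 0).isLt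
        omega
      rw [← hvm p i, ← hvm q i]
      have h2 := congrArg (fun e : Fin s ≃ Fin s => e ⟨i % s, Nat.mod_lt _ hs⟩) hpq
      exact h2
    have h2 : p.1 = q.1 := by
      apply Subtype.ext
      ext x y
      rw [hva p, hva q]
      simp only [h1]
    have h3 : p.2.fst = q.2.fst := by rw [← hv0 p, ← hv0 q, h1]
    have h4 : p.2.snd = q.2.snd := by rw [← hv1 p, ← hv1 q, h1]
    obtain ⟨G, d⟩ := p
    obtain ⟨G', d'⟩ := q
    simp only at h2 h3 h4
    subst h2
    rw [dart_ext h3 h4]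
  have hcard := Fintype.card_le_of_injective _ hinj
  rw [Fintype.card_sigma, Fintype.card_equiv (Equiv.refl (Fin s)), Fintype.card_fin] at hcard
  have h1 : ∀ G : T, Fintype.card G.1.Dart = 2 * s := by
    intro G
    rw [SimpleGraph.dart_card_eq_twice_card_edges]
    have hne : ne G.1 = #G.1.edgeFinset := by
      unfold ne
      rw [Nat.card_eq_fintype_card, SimpleGraph.edgeFinset_card]
    rw [← hne, G.2.2.2, Nat.add_zero]
  rw [sum_congr rfl fun G _ => h1 G, sum_const, card_univ, smul_eq_mul] at hcard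
  have h2 : Kc s 0 = Fintype.card T := by
    unfold Kc
    rw [Nat.card_eq_fintype_card]
  rw [h2, mul_comm]
  exact hcard

theorem small (s : ℕ) (hs : s ≤ 2) : Kc s 0 = 0 := by
  classical
  unfold Kc
  rw [Nat.card_eq_zero]
  left
  constructor
  rintro ⟨G, hc, hd, _⟩
  obtain ⟨v⟩ := hc.nonempty
  have h1 := hd v
  have h2 : dg G v = G.degree v := by
    unfold dg
    rw [Nat.card_eq_fintype_card, SimpleGraph.card_neighborSet_eq_degree]
  have h3 := G.degree_lt_card_verts v
  rw [Fintype.card_fin] at h3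
  omega

theorem t : Pool.Agent.Helper96.AW.S_TB2 := fun s => ⟨main s, small s⟩

end Pool.Agent.Helper38.AW.TB2
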