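import Pool.Agent.Helper38.AW.TCcore
import Pool.Agent.Helper26.AL.All

/-!
# Project AW (MP_af6c86_pr), packet TC
-/

namespace Pool.Agent.Helper38.AW.TC

theorem t : Pool.Agent.Helper96.AW.S_TC := core Pool.Agent.Helper26.AL.okBIJ

end Pool.Agent.Helper38.AW.TC
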