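import Pool.Agent.Helper96.AW.GoalsA
import Pool.Agent.Helper45.AL.CLO
import Pool.Agent.Helper35.AL.BIJ

/-!
# Project AW (MP_af6c86_pr), packet TC: recursion for weighted pseudoforests
-/

set_option autoImplicit false

namespace Pool.Agent.Helper38.AW.TC

open Finset Pool.Agent.Helper26.AF Pool.Agent.Helper26.AL Pool.Agent.Helper96.AW
open Pool.Agent.Helper45.AL
open Pool.Agent.Helper35.AL (clo_compl)

/-- the condition of `XL` -/
def Gd {V : Type} (L : ℕ) (G : SimpleGraph V) : Prop :=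
  ∀ Q : Finset V, IsComp G Q → eIn G Q ≤ #Q ∧ (eIn G Q < #Q → #Q < L)

open Classical in
/-- the weight -/
noncomputable def w (u : ℝ) (L : ℕ) (j i : ℕ) (H₁ : SimpleGraph (Fin j))
    (H₂ : SimpleGraph (Fin i)) : ℝ :=
  if (H₁.Connected ∧ ne H₁ ≤ j ∧ (ne H₁ < j → j < L)) ∧ Gd L H₂ then (j : ℝ) * u ^ (ne H₁ + ne H₂)
  else 0

theorem comp_univ {V : Type} [Fintype V] (G : SimpleGraph V) : IsComp G univ ↔ G.Connected := by
  rw [isComp_iff]
  constructor
  · rintro ⟨x, _, hx⟩
    have : Nonempty V := ⟨x⟩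
    refine ⟨fun a b => ?_⟩
    exact ((hx a).1 (mem_univ _)).symm.trans ((hx b).1 (mem_univ _))
  · intro h
    obtain ⟨x⟩ := h.nonempty
    exact ⟨x, mem_univ _, fun y => ⟨fun _ => h.preconnected x y, fun _ => mem_univ _⟩⟩

section

variable {n : ℕ} (G : SimpleGraph (Fin n)) (U : Finset (Fin n))

theorem map_univ_emb : (univ : Finset (Fin #U)).map (U.orderEmbOfFin rfl).toEmbedding = U := by
  ext y
  rw [mem_map]
  constructor
  · rintro ⟨i, _, rfl⟩
    exact emb_mem U i
  · intro hy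
    obtain ⟨i, hi⟩ := emb_surj U hy
    exact ⟨i, mem_univ _, hi⟩

theorem clo_conn : (Clo G U ∧ (gi G U).Connected) ↔ IsComp G U := by
  constructor
  · rintro ⟨h1, h2⟩
    have h3 := (comp_gi G U h1 univ).1 ((comp_univ _).2 h2)
    rwa [map_univ_emb] at h3
  · intro h
    have h1 := comp_clo h
    refine ⟨h1, (comp_univ _).1 ((comp_gi G U h1 univ).2 ?_)⟩
    rwa [map_univ_emb]

theorem gd_iff (L : ℕ) (h : IsComp G U) :
    Gd L G ↔ (eIn G U ≤ #U ∧ (eIn G U < #U → #U < L)) ∧ Gd L (gi G Uᶜ) := by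
  have hc : Clo G Uᶜ := clo_compl G U (comp_clo h)
  constructor
  · intro hG
    refine ⟨hG U h, fun Q hQ => ?_⟩
    have h1 := hG _ ((comp_gi G Uᶜ hc Q).1 hQ)
    rw [← eIn_gi, card_map] at h1
    exact h1
  · rintro ⟨h1, h2⟩ Q hQ
    obtain ⟨x, hx⟩ := comp_ne hQ
    by_cases hxU : x ∈ U
    · rw [comp_eq hQ h hx hxU]
      exact h1
    · have hsub := comp_sub hc hQ hx (mem_compl.2 hxU)
      obtain ⟨Q', hQ'⟩ := comp_of_sub Uᶜ Q hsub
      have h3 := h2 Q' ((comp_gi G Uᶜ hc Q').2 (by rw [hQ']; exact hQ))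
      rw [eIn_gi, hQ'] at h3
      have h4 : #Q' = #Q := by rw [← hQ', card_map]
      rw [h4] at h3
      exact h3

theorem ne_split (h : Clo G U) : ne (gi G U) + ne (gi G Uᶜ) = ne G := by
  classical
  rw [ne_gi, ne_gi, ne_eq_eIn]
  have h1 : ∀ Q : Finset (Fin n), eIn G Q =
      #(univ.filter fun e : Sym2 (Fin n) => e ∈ G.edgeSet ∧ ∀ v ∈ e, v ∈ Q) := by
    intro Q
    unfold eIn
    rw [Nat.card_eq_fintype_card, Fintype.card_subtype]
  rw [h1, h1, h1, ← card_union_of_disjoint]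
  · congr 1
    ext e
    simp only [mem_union, mem_filter, mem_univ, true_and, implies_true, and_true]
    induction e using Sym2.ind with
    | _ a b =>
      simp only [SimpleGraph.mem_edgeSet, Sym2.mem_iff, forall_eq_or_imp, forall_eq, mem_compl]
      constructor
      · rintro (h | h)
        · exact h.1
        · exact h.1
      · intro hab
        by_cases ha : a ∈ U
        · exact Or.inl ⟨hab, ha, h a b hab ha⟩
        · refine Or.inr ⟨hab, ha, fun hb => ha (h b a hab.symm hb)⟩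
  · rw [Finset.disjoint_left]
    intro e he he'
    rw [mem_filter] at he he'
    induction e using Sym2.ind with
    | _ a b =>
      have h2 := he.2.2 a (by simp)
      have h3 := he'.2.2 a (by simp)
      exact (mem_compl.1 h3) h2

open Classical in
theorem sum_comp : ∑ Q : Finset (Fin n), (if IsComp G Q then (#Q : ℝ) else 0) = n := by
  have h1 : ∀ Q : Finset (Fin n), (if IsComp G Q then (#Q : ℝ) else 0) =
      ∑ x : Fin n, if IsComp G Q ∧ x ∈ Q then (1 : ℝ) else 0 := by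
    intro Q
    by_cases h : IsComp G Q
    · rw [if_pos h]
      simp [h]
    · rw [if_neg h]
      simp [h]
  rw [sum_congr rfl fun Q _ => h1 Q, sum_comm]
  have h2 : ∀ x : Fin n, ∑ Q : Finset (Fin n), (if IsComp G Q ∧ x ∈ Q then (1 : ℝ) else 0) = 1 := by
    intro x
    obtain ⟨Q, hQ, hx⟩ := exists_comp G x
    rw [sum_eq_single Q]
    · rw [if_pos ⟨hQ, hx⟩]
    · intro Q' _ hne
      rw [if_neg]
      rintro ⟨h3, h4⟩
      exact hne (comp_eq h3 hQ h4 hx)
    · intro h
      exact absurd (mem_univ _) h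
  rw [sum_congr rfl fun x _ => h2 x]
  simp

open Classical in
theorem lhs_one (u : ℝ) (L : ℕ) :
    (∑ U : Finset (Fin n), if Clo G U then w u L #U #Uᶜ (gi G U) (gi G Uᶜ) else 0) =
      (n : ℝ) * (if Gd L G then u ^ ne G else 0) := by
  rw [← sum_comp G, sum_mul]
  refine sum_congr rfl fun U _ => ?_
  by_cases hU : IsComp G U
  · have h1 := (clo_conn G U).2 hU
    have h2 := gd_iff G U L hU
    rw [if_pos h1.1, if_pos hU]
    unfold w
    rw [ne_split G U h1.1, ne_gi]
    by_cases hG : Gd L G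
    · rw [if_pos hG, if_pos]
      exact ⟨⟨h1.2, (h2.1 hG).1⟩, (h2.1 hG).2⟩
    · rw [if_neg hG, if_neg, mul_zero]
      rintro ⟨⟨_, h3⟩, h4⟩
      exact hG (h2.2 ⟨h3, h4⟩)
  · rw [if_neg hU, zero_mul]
    by_cases h1 : Clo G U
    · rw [if_pos h1]
      unfold w
      rw [if_neg]
      rintro ⟨⟨h3, _⟩, _⟩
      exact hU ((clo_conn G U).1 ⟨h1, h3⟩)
    · rw [if_neg h1]

end

open Classical in
theorem XL_eq (u : ℝ) (L m : ℕ) :
    XL u L m = ∑ G : SimpleGraph (Fin m), if Gd L G then u ^ ne G else 0 := by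
  unfold XL
  refine sum_congr rfl fun G _ => ?_
  by_cases h : Gd L G
  · have h' : ∀ Q : Finset (Fin m), IsComp G Q → eIn G Q ≤ #Q ∧ (eIn G Q < #Q → #Q < L) := h
    rw [if_pos h, if_pos h']
  · have h' : ¬ ∀ Q : Finset (Fin m), IsComp G Q → eIn G Q ≤ #Q ∧ (eIn G Q < #Q → #Q < L) := h
    rw [if_neg h, if_neg h']

open Classical in
theorem card_ind {j : ℕ} (P : SimpleGraph (Fin j) → Prop) :
    (Nat.card {H : SimpleGraph (Fin j) // P H} : ℝ) = ∑ H : SimpleGraph (Fin j), if P H then (1 : ℝ) else 0 := by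
  rw [Nat.card_eq_fintype_card, Fintype.card_subtype, Finset.sum_boole]

open Classical in
theorem sum_conn (u : ℝ) (L j : ℕ) (hj : 1 ≤ j) :
    (∑ H : SimpleGraph (Fin j), if H.Connected ∧ ne H ≤ j ∧ (ne H < j → j < L) then u ^ ne H else 0)
      = wk u L j := by
  unfold wk trk Nc
  have h0 : (if j < L then (Nat.card {H : SimpleGraph (Fin j) // H.Connected ∧ ne H + 1 = j} : ℝ) *
      u ^ (j - 1) else 0) = ∑ H : SimpleGraph (Fin j),
        if (H.Connected ∧ ne H + 1 = j) ∧ j < L then u ^ (j - 1) else 0 := by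
    by_cases hL : j < L
    · rw [if_pos hL, card_ind, sum_mul]
      refine sum_congr rfl fun H _ => ?_
      by_cases h : H.Connected ∧ ne H + 1 = j
      · rw [if_pos h, if_pos ⟨h, hL⟩, one_mul]
      · rw [if_neg h, if_neg (fun h' => h h'.1), zero_mul]
    · rw [if_neg hL]
      symm
      refine sum_eq_zero fun H _ => ?_
      rw [if_neg (fun h' => hL h'.2)]
  rw [h0, card_ind, sum_mul, ← sum_add_distrib]
  refine sum_congr rfl fun H _ => ?_
  by_cases hc : H.Connected
  · have h1 := hc.card_vert_le_card_edgeSet_add_one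
    have h2 : Nat.card H.edgeSet = ne H := rfl
    rw [h2, Nat.card_eq_fintype_card, Fintype.card_fin] at h1
    rcases Nat.lt_trichotomy (ne H) j with h3 | h3 | h3
    · have h4 : ne H + 1 = j := by omega
      rw [if_neg (fun h : H.Connected ∧ ne H = j + 0 => by omega), zero_mul, add_zero]
      have h5 : ne H = j - 1 := by omega
      by_cases hL : j < L
      · rw [if_pos ⟨hc, by omega, fun _ => hL⟩, if_pos ⟨⟨hc, h4⟩, hL⟩, h5]
      · rw [if_neg (fun h => hL (h.2.2 h3)), if_neg (fun h => hL h.2)]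
    · rw [if_pos ⟨hc, h3.le, fun h => absurd h (by omega)⟩,
        if_neg (fun h : (H.Connected ∧ ne H + 1 = j) ∧ j < L => by omega),
        if_pos ⟨hc, by omega⟩, zero_add, one_mul, h3]
    · rw [if_neg (fun h => by omega),
        if_neg (fun h : (H.Connected ∧ ne H + 1 = j) ∧ j < L => by omega),
        if_neg (fun h : H.Connected ∧ ne H = j + 0 => by omega), zero_mul, add_zero]
  · rw [if_neg (fun h => hc h.1), if_neg (fun h => hc h.1.1), if_neg (fun h => hc h.1), zero_mul,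
      add_zero]

open Classical in
theorem rhs_one (u : ℝ) (L j i : ℕ) (hj : 1 ≤ j) :
    ∑ H₁ : SimpleGraph (Fin j), ∑ H₂ : SimpleGraph (Fin i), w u L j i H₁ H₂ =
      ((j : ℝ) * wk u L j) * XL u L i := by
  rw [← sum_conn u L j hj, XL_eq, mul_assoc, sum_mul_sum, mul_sum]
  refine sum_congr rfl fun H₁ _ => ?_
  rw [mul_sum]
  refine sum_congr rfl fun H₂ _ => ?_
  unfold w
  by_cases h1 : H₁.Connected ∧ ne H₁ ≤ j ∧ (ne H₁ < j → j < L)
  · by_cases h2 : Gd L H₂
    · rw [if_pos ⟨h1, h2⟩, if_pos h1, if_pos h2, pow_add]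
    · rw [if_neg (fun h => h2 h.2), if_neg h2, mul_zero, mul_zero]
  · rw [if_neg (fun h => h1 h.1), if_neg h1, zero_mul, mul_zero]

theorem core (hBIJ : StmtBIJ) : S_TC := by
  classical
  intro u L m
  have h1 := hBIJ m (w u L)
  rw [sum_congr rfl fun G _ => lhs_one G u L, ← mul_sum] at h1
  rw [XL_eq, h1, Finset.range_eq_Ico, Finset.sum_eq_sum_Ico_succ_bot (by omega)]
  have h2 : ∑ H₁ : SimpleGraph (Fin 0), ∑ H₂ : SimpleGraph (Fin (m - 0)),
      w u L 0 (m - 0) H₁ H₂ = 0 := by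
    refine sum_eq_zero fun H₁ _ => sum_eq_zero fun H₂ _ => ?_
    unfold w
    simp
  rw [h2, mul_zero, zero_add]
  have h3 : Ico (0 + 1) (m + 1) = Icc 1 m := by
    ext x
    simp only [mem_Ico, mem_Icc]
    omega
  rw [h3]
  refine sum_congr rfl fun j hj => ?_
  rw [rhs_one u L j (m - j) (mem_Icc.1 hj).1]
  ring

end Pool.Agent.Helper38.AW.TC
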